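import Mathlib

/-!
# The analytic part: `2 β_n - β_{2n}` and `β_n`
-/

namespace Pool.Agent.Hhelper78.SawEq

open Filter Topology Real

theorem telescope (β : ℕ → ℝ) (n J : ℕ) :
    β n = ∑ j ∈ Finset.range J, (1 / 2 : ℝ) ^ (j + 1) * (2 * β (2 ^ j * n) - β (2 * (2 ^ j * n))) +
      (1 / 2 : ℝ) ^ J * β (2 ^ J * n) := by
  induction J with
  | zero => simp
  | succ J ih =>
    rw [Finset.sum_range_succ, ih]
    have h : 2 ^ (J + 1) * n = 2 * (2 ^ J * n) := by ring
    rw [h]
    ring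

theorem tail_tendsto {β : ℕ → ℝ} (h : Tendsto (fun n : ℕ => β n / n) atTop (𝓝 0)) {n : ℕ}
    (hn : 0 < n) : Tendsto (fun J : ℕ => (1 / 2 : ℝ) ^ J * β (2 ^ J * n)) atTop (𝓝 0) := by
  have h1 : Tendsto (fun J : ℕ => 2 ^ J * n) atTop atTop :=
    (tendsto_pow_atTop_atTop_of_one_lt (by norm_num : (1 : ℕ) < 2)).atTop_mul_const' hn
  have h2 := (h.comp h1).const_mul (n : ℝ)
  rw [mul_zero] at h2
  refine h2.congr fun J => ?_
  simp only [Function.comp]
  have hn' : (n : ℝ) ≠ 0 := by positivity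
  push_cast
  have h3 : (2 : ℝ) ^ J * (1 / 2) ^ J = 1 := by rw [← mul_pow]; norm_num
  field_simp
  rw [mul_assoc, h3, mul_one]

theorem hasSum_beta {β : ℕ → ℝ} (h : Tendsto (fun n : ℕ => β n / n) atTop (𝓝 0))
    (hpos : ∀ n, 0 ≤ 2 * β n - β (2 * n)) {n : ℕ} (hn : 0 < n) :
    HasSum (fun j : ℕ => (1 / 2 : ℝ) ^ (j + 1) * (2 * β (2 ^ j * n) - β (2 * (2 ^ j * n))))
      (β n) := by
  rw [hasSum_iff_tendsto_nat_of_nonneg]
  · have h1 := tail_tendsto h hn
    have h2 : Tendsto (fun J : ℕ => β n - (1 / 2 : ℝ) ^ J * β (2 ^ J * n)) atTop (𝓝 (β n - 0)) :=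
      tendsto_const_nhds.sub h1
    rw [sub_zero] at h2
    refine h2.congr fun J => ?_
    have := telescope β n J
    linarith
  · intro j
    exact mul_nonneg (by positivity) (hpos _)

theorem hasSum_log {n : ℕ} (hn : 0 < n) :
    HasSum (fun j : ℕ => (1 / 2 : ℝ) ^ (j + 1) * Real.log ((2 ^ j * n : ℕ) : ℝ))
      (Real.log n + Real.log 2) := by
  have h1 : HasSum (fun j : ℕ => (1 / 2 : ℝ) ^ (j + 1) * Real.log n) (Real.log n) := by
    have h3 := (hasSum_geometric_two' (1 : ℝ)).mul_right (Real.log n)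
    rw [one_mul] at h3
    have h4 : (fun j : ℕ => (1 / 2 : ℝ) ^ (j + 1) * Real.log n) =
        fun j : ℕ => (1 : ℝ) / 2 / 2 ^ j * Real.log n := by
      funext j
      rw [pow_succ, div_pow, one_pow]
      ring
    rw [h4]
    exact h3
  have h2 : HasSum (fun j : ℕ => (1 / 2 : ℝ) ^ (j + 1) * (j * Real.log 2)) (Real.log 2) := by
    have h3 := (hasSum_coe_mul_geometric_of_norm_lt_one (r := (1 / 2 : ℝ)) (by norm_num))
    have h4 := h3.mul_right ((1 / 2 : ℝ) * Real.log 2)
    have h5 : (fun j : ℕ => (1 / 2 : ℝ) ^ (j + 1) * (j * Real.log 2)) =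
        fun j : ℕ => (j : ℝ) * (1 / 2) ^ j * (1 / 2 * Real.log 2) := by
      funext j
      rw [pow_succ]
      ring
    have h6 : (1 / 2 : ℝ) / (1 - 1 / 2) ^ 2 * (1 / 2 * Real.log 2) = Real.log 2 := by
      ring
    rw [h5, ← h6]
    rw [h6]
    rw [h6] at h4
    exact h4
  convert h1.add h2 using 1
  ext j
  push_cast
  rw [Real.log_mul (by positivity) (by positivity), Real.log_pow]
  ring

theorem forward {β : ℕ → ℝ} {γ : ℝ}
    (h : Tendsto (fun n : ℕ => β n / Real.log n) atTop (𝓝 γ)) :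
    Tendsto (fun n : ℕ => (2 * β n - β (2 * n)) / Real.log n) atTop (𝓝 γ) := by
  have hlog : Tendsto (fun n : ℕ => Real.log n) atTop atTop :=
    Real.tendsto_log_atTop.comp tendsto_natCast_atTop_atTop
  have h2n : Tendsto (fun n : ℕ => 2 * n) atTop atTop :=
    tendsto_id.const_mul_atTop' (by norm_num : 0 < 2)
  have h1 : Tendsto (fun n : ℕ => β (2 * n) / Real.log ((2 * n : ℕ) : ℝ)) atTop (𝓝 γ) := h.comp h2n
  have h3 : Tendsto (fun n : ℕ => Real.log ((2 * n : ℕ) : ℝ) / Real.log n) atTop (𝓝 1) := by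
    have h4 : Tendsto (fun n : ℕ => Real.log 2 / Real.log n) atTop (𝓝 0) :=
      tendsto_const_nhds.div_atTop hlog
    have h5 := h4.add_const 1
    rw [zero_add] at h5
    refine h5.congr' ?_
    filter_upwards [eventually_gt_atTop 1] with n hn
    have hn' : 0 < Real.log n := Real.log_pos (by exact_mod_cast hn)
    push_cast
    rw [Real.log_mul (by norm_num) (by positivity)]
    field_simp
  have h6 := ((h.const_mul 2).sub (h1.mul h3))
  have : 2 * γ - γ * 1 = γ := by ring
  rw [this] at h6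
  refine h6.congr' ?_
  filter_upwards [eventually_gt_atTop 1] with n hn
  have hn' : 0 < Real.log n := Real.log_pos (by exact_mod_cast hn)
  have hn2 : 0 < Real.log ((2 * n : ℕ) : ℝ) := Real.log_pos (by exact_mod_cast (by omega : 1 < 2 * n))
  field_simp

theorem backward {β : ℕ → ℝ} {γ : ℝ} (h0 : Tendsto (fun n : ℕ => β n / n) atTop (𝓝 0))
    (hpos : ∀ n, 0 ≤ 2 * β n - β (2 * n))
    (h : Tendsto (fun n : ℕ => (2 * β n - β (2 * n)) / Real.log n) atTop (𝓝 γ)) :
    Tendsto (fun n : ℕ => β n / Real.log n) atTop (𝓝 γ) := by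
  have hlog : Tendsto (fun n : ℕ => Real.log n) atTop atTop :=
    Real.tendsto_log_atTop.comp tendsto_natCast_atTop_atTop
  -- `β n / (log n + log 2) → γ`
  have key : Tendsto (fun n : ℕ => β n / (Real.log n + Real.log 2)) atTop (𝓝 γ) := by
    rw [Metric.tendsto_atTop] at h ⊢
    intro ε hε
    obtain ⟨N, hN⟩ := h (ε / 2) (by positivity)
    refine ⟨max N 2, fun n hn => ?_⟩
    have hn2 : 2 ≤ n := le_trans (le_max_right _ _) hn
    have hnN : N ≤ n := le_trans (le_max_left _ _) hn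
    have hb := hasSum_beta h0 hpos (n := n) (by omega)
    have hl := hasSum_log (n := n) (by omega)
    have hm : ∀ j : ℕ, |(2 * β (2 ^ j * n) - β (2 * (2 ^ j * n))) -
        γ * Real.log ((2 ^ j * n : ℕ) : ℝ)| ≤ ε / 2 * Real.log ((2 ^ j * n : ℕ) : ℝ) := by
      intro j
      have hmn : n ≤ 2 ^ j * n := Nat.le_mul_of_pos_left n (by positivity)
      have h1 := hN (2 ^ j * n) (by omega)
      have hL : 0 < Real.log ((2 ^ j * n : ℕ) : ℝ) :=
        Real.log_pos (by exact_mod_cast (by omega : 1 < 2 ^ j * n))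
      rw [Real.dist_eq] at h1
      have h2 : (2 * β (2 ^ j * n) - β (2 * (2 ^ j * n))) - γ * Real.log ((2 ^ j * n : ℕ) : ℝ) =
          ((2 * β (2 ^ j * n) - β (2 * (2 ^ j * n))) / Real.log ((2 ^ j * n : ℕ) : ℝ) - γ) *
            Real.log ((2 ^ j * n : ℕ) : ℝ) := by
        field_simp
      rw [h2, abs_mul, abs_of_pos hL]
      exact mul_le_mul_of_nonneg_right h1.le hL.le
    have hup : β n ≤ (γ + ε / 2) * (Real.log n + Real.log 2) := by
      refine hasSum_le (fun j => ?_) hb (hl.mul_left (γ + ε / 2))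
      have h1 := (abs_le.mp (hm j)).2
      have h2 : (0 : ℝ) ≤ (1 / 2 : ℝ) ^ (j + 1) := by positivity
      nlinarith
    have hlo : (γ - ε / 2) * (Real.log n + Real.log 2) ≤ β n := by
      refine hasSum_le (fun j => ?_) (hl.mul_left (γ - ε / 2)) hb
      have h1 := (abs_le.mp (hm j)).1
      have h2 : (0 : ℝ) ≤ (1 / 2 : ℝ) ^ (j + 1) := by positivity
      nlinarith
    have hp : 0 < Real.log n + Real.log 2 := by
      have h1 : 0 < Real.log n := Real.log_pos (by exact_mod_cast (by omega : 1 < n))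
      have h2 : 0 < Real.log 2 := Real.log_pos (by norm_num)
      linarith
    rw [Real.dist_eq]
    have h1 : β n / (Real.log n + Real.log 2) ≤ γ + ε / 2 := by
      rw [div_le_iff₀ hp]; exact hup
    have h2 : γ - ε / 2 ≤ β n / (Real.log n + Real.log 2) := by
      rw [le_div_iff₀ hp]; exact hlo
    rw [abs_lt]
    constructor <;> linarith
  have h3 : Tendsto (fun n : ℕ => (Real.log n + Real.log 2) / Real.log n) atTop (𝓝 1) := by
    have h4 : Tendsto (fun n : ℕ => Real.log 2 / Real.log n) atTop (𝓝 0) :=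
      tendsto_const_nhds.div_atTop hlog
    have h5 := h4.const_add 1
    rw [add_zero] at h5
    refine h5.congr' ?_
    filter_upwards [eventually_gt_atTop 1] with n hn
    have hn' : 0 < Real.log n := Real.log_pos (by exact_mod_cast hn)
    field_simp
  have h6 := key.mul h3
  rw [mul_one] at h6
  refine h6.congr' ?_
  filter_upwards [eventually_gt_atTop 1] with n hn
  have hn' : 0 < Real.log n := Real.log_pos (by exact_mod_cast hn)
  have h2 : 0 < Real.log 2 := Real.log_pos (by norm_num)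
  have hp : Real.log n + Real.log 2 ≠ 0 := by positivity
  field_simp

end Pool.Agent.Hhelper78.SawEq
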