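import Pool.Agent.Hhelper78.SawEq.Geom

/-!
# Counting self-avoiding paths: invariance, finiteness, submultiplicativity, midpoints
-/

namespace Pool.Agent.Hhelper78.SawEq

open Filter Topology Metric

variable (L : Lattice)

/-- self-avoiding, any start -/
def IsSaw {n : ℕ} (w : Fin (n + 1) → Plane) : Prop :=
  (∀ i : Fin n, L.G.Adj (w i.castSucc) (w i.succ)) ∧ Function.Injective w

variable {L}

theorem mem_saw {o : Plane} {n : ℕ} {w : Fin (n + 1) → Plane} :
    w ∈ saw L o n ↔ w 0 = o ∧ IsSaw L w := Iff.rfl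

theorem IsSaw.adj {n : ℕ} {w : Fin (n + 1) → Plane} (h : IsSaw L w) {i : ℕ} (hi : i < n) :
    L.G.Adj (w ⟨i, by omega⟩) (w ⟨i + 1, by omega⟩) := h.1 ⟨i, hi⟩

theorem IsSaw.mem {n : ℕ} {w : Fin (n + 1) → Plane} (h : IsSaw L w) (h0 : w 0 ∈ L.V)
    (i : Fin (n + 1)) : w i ∈ L.V := by
  obtain ⟨i, hi⟩ := i
  induction i with
  | zero => exact h0
  | succ i ih => exact mem_of_adj' L (h.adj (i := i) (by omega))

theorem IsSaw.mem_of {n : ℕ} {w : Fin (n + 1) → Plane} (h : IsSaw L w) {j : Fin (n + 1)}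
    (hj : w j ∈ L.V) : w 0 ∈ L.V := by
  rcases Nat.eq_zero_or_pos n with hn | hn
  · subst hn
    have : j = 0 := Fin.ext (by have := j.2; change (j : ℕ) = 0; omega)
    rwa [this] at hj
  · exact L.mem_of_adj _ _ (h.adj (i := 0) hn)

theorem IsSaw.dist_le {ℓ : ℝ} (hℓ : ∀ u v, L.G.Adj u v → dist u v ≤ ℓ) {n : ℕ}
    {w : Fin (n + 1) → Plane} (h : IsSaw L w) {i j : ℕ} (hij : i ≤ j) (hj : j < n + 1) :
    dist (w ⟨i, by omega⟩) (w ⟨j, hj⟩) ≤ (j - i : ℕ) * ℓ := by
  induction j, hij using Nat.le_induction with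
  | base => simp
  | succ j hij ih =>
    have h1 := ih (by omega)
    have h2 := hℓ _ _ (h.adj (i := j) (by omega))
    have h3 := dist_triangle (w ⟨i, by omega⟩) (w ⟨j, by omega⟩) (w ⟨j + 1, hj⟩)
    have h4 : ((j + 1 - i : ℕ) : ℝ) = (j - i : ℕ) + 1 := by
      rw [show j + 1 - i = (j - i) + 1 by omega]
      push_cast
      rfl
    rw [h4]
    linarith

theorem finite_of_pos {o : Plane} (n : ℕ) (k : Fin (n + 1)) (R : ℝ) :
    {w : Fin (n + 1) → Plane | IsSaw L w ∧ w k ∈ bV L o R}.Finite := by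
  obtain ⟨ℓ, hℓ0, hℓ⟩ := exists_len L
  obtain ⟨C, -, hg⟩ := exists_growth L o
  have hfin : (bV L o (max R 0 + n * ℓ)).Finite := (hg _ (by positivity)).1
  refine (Set.Finite.pi' (fun _ : Fin (n + 1) => hfin)).subset ?_
  rintro w ⟨hw, hk⟩ i
  refine ⟨hw.mem (hw.mem_of hk.1) i, ?_⟩
  rw [mem_closedBall]
  have hk2 : dist (w k) o ≤ R := hk.2
  have h1 : dist (w i) (w k) ≤ n * ℓ := by
    rcases le_total (i : ℕ) k with hik | hik
    · have := hw.dist_le hℓ hik k.2
      refine this.trans (mul_le_mul_of_nonneg_right ?_ hℓ0)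
      have : ((k : ℕ) - i : ℕ) ≤ n := by omega
      exact_mod_cast this
    · have := hw.dist_le hℓ hik i.2
      rw [dist_comm]
      refine this.trans (mul_le_mul_of_nonneg_right ?_ hℓ0)
      have : ((i : ℕ) - k : ℕ) ≤ n := by omega
      exact_mod_cast this
  have h2 := dist_triangle (w i) (w k) o
  have h3 := le_max_left R 0
  linarith

theorem saw_finite {o : Plane} (ho : o ∈ L.V) (n : ℕ) : (saw L o n).Finite := by
  refine (finite_of_pos (L := L) (o := o) n 0 0).subset ?_
  rintro w ⟨h0, hw⟩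
  exact ⟨hw, by rw [h0]; exact ⟨ho, mem_closedBall_self le_rfl⟩⟩

/-- paths through `y` at time `k` -/
def sawAt (L : Lattice) (y : Plane) (n : ℕ) (k : Fin (n + 1)) : Set (Fin (n + 1) → Plane) :=
  {w | IsSaw L w ∧ w k = y}

theorem sawAt_zero (y : Plane) (n : ℕ) : sawAt L y n 0 = saw L y n := by
  ext w
  exact and_comm

theorem sawAt_finite {y : Plane} (hy : y ∈ L.V) (n : ℕ) (k : Fin (n + 1)) :
    (sawAt L y n k).Finite := by
  refine (finite_of_pos (L := L) (o := y) n k 0).subset ?_
  rintro w ⟨hw, h0⟩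
  exact ⟨hw, by rw [h0]; exact ⟨hy, mem_closedBall_self le_rfl⟩⟩

theorem ncard_sawAt {x y : Plane} (hx : x ∈ L.V) (hy : y ∈ L.V) (n : ℕ) (k : Fin (n + 1)) :
    (sawAt L x n k).ncard = (sawAt L y n k).ncard := by
  obtain ⟨φ, -, h2, h3⟩ := L.transitive x hx y hy
  have h4 : sawAt L y n k = (fun w : Fin (n + 1) → Plane => φ ∘ w) '' sawAt L x n k := by
    ext v
    constructor
    · rintro ⟨⟨ha, hi⟩, hk⟩
      refine ⟨φ.symm ∘ v, ⟨⟨fun i => ?_, φ.symm.injective.comp hi⟩, ?_⟩, ?_⟩
      · rw [← h2]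
        simpa using ha i
      · change φ.symm (v k) = x
        rw [hk, ← h3, φ.symm_apply_apply]
      · funext i
        simp
    · rintro ⟨w, ⟨⟨ha, hi⟩, hk⟩, rfl⟩
      exact ⟨⟨fun i => (h2 _ _).mpr (ha i), φ.injective.comp hi⟩, by simp [hk, h3]⟩
  rw [h4, Set.ncard_image_of_injective]
  intro w w' hww
  funext i
  exact φ.injective (congrFun hww i)

theorem a_eq {x y : Plane} (hx : x ∈ L.V) (hy : y ∈ L.V) (n : ℕ) : a L x n = a L y n := by
  rw [a, a, ← sawAt_zero, ← sawAt_zero]
  exact ncard_sawAt hx hy n 0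

/-- counting paths by the position at time `k` -/
theorem ncard_ball {o : Plane} (ho : o ∈ L.V) (n : ℕ) (k : Fin (n + 1)) {R : ℝ} (hR : 0 ≤ R) :
    {w : Fin (n + 1) → Plane | IsSaw L w ∧ w k ∈ bV L o R}.ncard =
      (bV L o R).ncard * (sawAt L o n k).ncard := by
  classical
  obtain ⟨C, -, hg⟩ := exists_growth L o
  have hB := (hg R hR).1
  have hX := finite_of_pos (L := L) (o := o) n k R
  rw [Set.ncard_eq_toFinset_card _ hX, Set.ncard_eq_toFinset_card _ hB]
  have hmaps : ∀ w ∈ hX.toFinset, w k ∈ hB.toFinset := by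
    intro w hw
    rw [Set.Finite.mem_toFinset] at hw ⊢
    exact hw.2
  rw [Finset.card_eq_sum_card_fiberwise hmaps, Finset.sum_const_nat (m := (sawAt L o n k).ncard)]
  intro y hy
  rw [Set.Finite.mem_toFinset] at hy
  rw [ncard_sawAt ho hy.1, Set.ncard_eq_toFinset_card _ (sawAt_finite hy.1 n k)]
  congr 1
  ext w
  simp only [Finset.mem_filter, Set.Finite.mem_toFinset, Set.mem_setOf_eq, sawAt]
  constructor
  · rintro ⟨⟨h1, -⟩, h2⟩
    exact ⟨h1, h2⟩
  · rintro ⟨h1, h2⟩
    exact ⟨⟨h1, by rw [h2]; exact hy⟩, h2⟩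

theorem sawAt_le_aux {o : Plane} (ho : o ∈ L.V) (n : ℕ) (k l : Fin (n + 1)) :
    ¬ (sawAt L o n k).ncard < (sawAt L o n l).ncard := by
  intro hlt
  obtain ⟨ℓ, hℓ0, hℓ⟩ := exists_len L
  refine no_exp_growth L ho (c := n * ℓ) (by positivity) hlt fun R hR => ?_
  have h1 := ncard_ball ho n l hR
  have h2 := ncard_ball ho n k (R := R + n * ℓ) (by positivity)
  rw [mul_comm, ← h1, mul_comm, ← h2]
  apply Set.ncard_le_ncard _ (finite_of_pos (L := L) n k _)
  rintro w ⟨hw, hl⟩
  refine ⟨hw, hw.mem (hw.mem_of hl.1) k, ?_⟩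
  rw [mem_closedBall]
  have hl2 : dist (w l) o ≤ R := hl.2
  have h3 : dist (w k) (w l) ≤ n * ℓ := by
    rcases le_total (k : ℕ) l with hik | hik
    · refine (hw.dist_le hℓ hik l.2).trans (mul_le_mul_of_nonneg_right ?_ hℓ0)
      have : ((l : ℕ) - k : ℕ) ≤ n := by omega
      exact_mod_cast this
    · rw [dist_comm]
      refine (hw.dist_le hℓ hik k.2).trans (mul_le_mul_of_nonneg_right ?_ hℓ0)
      have : ((k : ℕ) - l : ℕ) ≤ n := by omega
      exact_mod_cast this
  have h4 := dist_triangle (w k) (w l) o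
  linarith

/-- the number of paths with `w_k = o` does not depend on `k` -/
theorem ncard_sawAt_eq {o : Plane} (ho : o ∈ L.V) (n : ℕ) (k : Fin (n + 1)) :
    (sawAt L o n k).ncard = a L o n := by
  rw [a, ← sawAt_zero]
  exact le_antisymm (not_lt.mp (sawAt_le_aux ho n 0 k)) (not_lt.mp (sawAt_le_aux ho n k 0))

/-- pairs of paths from `o` that meet at `o` only -/
def pairs (L : Lattice) (o : Plane) (n : ℕ) :
    Set ((Fin (n + 1) → Plane) × (Fin (n + 1) → Plane)) :=
  {p | p.1 ∈ saw L o n ∧ p.2 ∈ saw L o n ∧ ∀ i j, i ≠ 0 → p.1 i ≠ p.2 j}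

theorem ncard_pairs {o : Plane} (n : ℕ) :
    (pairs L o n).ncard = (sawAt L o (2 * n) ⟨n, by omega⟩).ncard := by
  symm
  refine Set.ncard_congr (fun v _ => ((fun i : Fin (n + 1) => v ⟨n - i, by omega⟩),
    (fun i : Fin (n + 1) => v ⟨n + i, by omega⟩))) ?_ ?_ ?_
  · rintro v ⟨hv, hn⟩
    refine ⟨⟨?_, fun i => ?_, ?_⟩, ⟨?_, fun i => ?_, ?_⟩, ?_⟩
    · simpa using hn
    · have h1 := hv.adj (i := n - (i + 1)) (by omega)
      have h2 : n - ((i : ℕ) + 1) + 1 = n - i := by have := i.2; omega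
      simp only [h2] at h1
      exact h1.symm
    · intro i j hij
      have h1 := hv.2 hij
      rw [Fin.mk.injEq] at h1
      apply Fin.ext
      have := i.2
      have := j.2
      omega
    · simpa using hn
    · exact hv.adj (i := n + i) (by have := i.2; omega)
    · intro i j hij
      have h1 := hv.2 hij
      rw [Fin.mk.injEq] at h1
      apply Fin.ext
      omega
    · intro i j hi hij
      have h1 := hv.2 hij
      rw [Fin.mk.injEq] at h1
      apply hi
      apply Fin.ext
      have := i.2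
      change (i : ℕ) = 0
      omega
  · rintro v v' hv hv' h
    rw [Prod.mk.injEq] at h
    obtain ⟨h1, h2⟩ := h
    funext i
    obtain ⟨i, hi⟩ := i
    rcases le_total i n with hin | hin
    · have h3 := congrFun h1 ⟨n - i, by omega⟩
      simp only at h3
      have h4 : n - (n - i) = i := by omega
      simpa only [h4] using h3
    · have h3 := congrFun h2 ⟨i - n, by omega⟩
      simp only at h3
      have h4 : n + (i - n) = i := by omega
      simpa only [h4] using h3
  · rintro ⟨w, w'⟩ ⟨⟨h0, hw⟩, ⟨h0', hw'⟩, hd⟩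
    simp only at h0 hw h0' hw' hd
    have hw : IsSaw L w := hw
    have hw' : IsSaw L w' := hw'
    let v : Fin (2 * n + 1) → Plane := fun i =>
      if h : (i : ℕ) ≤ n then w ⟨n - i, by omega⟩ else w' ⟨i - n, by omega⟩
    have hv1 : ∀ (i : ℕ) (h : i < 2 * n + 1) (hi : i ≤ n), v ⟨i, h⟩ = w ⟨n - i, by omega⟩ := by
      intro i h hi
      simp only [v, dif_pos hi]
    have hv2 : ∀ (i : ℕ) (h : i < 2 * n + 1) (hi : n ≤ i), v ⟨i, h⟩ = w' ⟨i - n, by omega⟩ := by
      intro i h hi
      rcases Nat.eq_or_lt_of_le hi with he | hlt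
      · subst he
        rw [hv1 n h le_rfl]
        have e1 : w ⟨n - n, by omega⟩ = o := by
          rw [← h0]; congr 1; apply Fin.ext; simp
        have e2 : w' ⟨n - n, by omega⟩ = o := by
          rw [← h0']; congr 1; apply Fin.ext; simp
        rw [e1, e2]
      · simp only [v, dif_neg (not_le.mpr hlt)]
    refine ⟨v, ⟨⟨fun i => ?_, ?_⟩, ?_⟩, ?_⟩
    · obtain ⟨i, hi⟩ := i
      change L.G.Adj (v ⟨i, by omega⟩) (v ⟨i + 1, by omega⟩)
      rcases Nat.lt_or_ge i n with hin | hin
      · rw [hv1 i _ hin.le, hv1 (i + 1) _ hin]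
        have h1 := hw.adj (i := n - (i + 1)) (by omega)
        have h2 : n - (i + 1) + 1 = n - i := by omega
        simp only [h2] at h1
        exact h1.symm
      · rw [hv2 i _ hin, hv2 (i + 1) _ (by omega)]
        have h1 := hw'.adj (i := i - n) (by omega)
        have h2 : i - n + 1 = i + 1 - n := by omega
        simp only [h2] at h1
        exact h1
    · rintro ⟨i, hi⟩ ⟨j, hj⟩ hij
      apply Fin.ext
      change i = j
      rcases Nat.lt_or_ge i n with hin | hin <;> rcases Nat.lt_or_ge j n with hjn | hjn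
      · rw [hv1 i _ hin.le, hv1 j _ hjn.le] at hij
        have := hw.2 hij
        rw [Fin.mk.injEq] at this
        omega
      · rw [hv1 i _ hin.le, hv2 j _ hjn] at hij
        exact absurd hij (hd _ _ (by
          intro h
          have := congrArg Fin.val h
          change n - i = 0 at this
          omega))
      · rw [hv2 i _ hin, hv1 j _ hjn.le] at hij
        exact absurd hij.symm (hd _ _ (by
          intro h
          have := congrArg Fin.val h
          change n - j = 0 at this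
          omega))
      · rw [hv2 i _ hin, hv2 j _ hjn] at hij
        have := hw'.2 hij
        rw [Fin.mk.injEq] at this
        omega
    · rw [hv1 n _ le_rfl, ← h0]
      congr 1
      apply Fin.ext
      simp
    · rw [Prod.mk.injEq]
      constructor
      · funext i
        obtain ⟨i, hi⟩ := i
        simp only
        rw [hv1 (n - i) _ (by omega)]
        congr 1
        apply Fin.ext
        change n - (n - i) = i
        omega
      · funext i
        obtain ⟨i, hi⟩ := i
        simp only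
        rw [hv2 (n + i) _ (by omega)]
        congr 1
        apply Fin.ext
        change n + i - n = i
        omega

theorem ncard_pairs_eq {o : Plane} (ho : o ∈ L.V) (n : ℕ) :
    (pairs L o n).ncard = a L o (2 * n) := by
  rw [ncard_pairs, ncard_sawAt_eq ho]

/-- the listed identity `P_n = a_{2n}/a_n²` -/
theorem P_eq {o : Plane} (ho : o ∈ L.V) (n : ℕ) :
    P L o n = (a L o (2 * n) : ℝ) / ((a L o n : ℝ) * a L o n) := by
  rw [P, ← ncard_pairs_eq ho]
  rfl

theorem a_submul {o : Plane} (ho : o ∈ L.V) (m n : ℕ) :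
    a L o (m + n) ≤ a L o m * a L o n := by
  classical
  have hX := saw_finite ho (m + n)
  have hY := saw_finite ho m
  rw [a, a, Set.ncard_eq_toFinset_card _ hX, Set.ncard_eq_toFinset_card _ hY, mul_comm]
  let f : (Fin (m + n + 1) → Plane) → (Fin (m + 1) → Plane) :=
    fun w i => w ⟨i, by omega⟩
  refine Finset.card_le_mul_card_image_of_maps_to (f := f) (fun w hw => ?_) _ (fun b hb => ?_)
  · rw [Set.Finite.mem_toFinset] at hw ⊢
    obtain ⟨h0, hw⟩ := hw
    have hw : IsSaw L w := hw
    refine ⟨h0, fun i => hw.adj (i := i) (by omega), fun i j hij => ?_⟩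
    have := hw.2 hij
    rw [Fin.mk.injEq] at this
    exact Fin.ext this
  · rw [Set.Finite.mem_toFinset] at hb
    obtain ⟨hb0, hb'⟩ := hb
    have hb' : IsSaw L b := hb'
    have hbV : b (Fin.last m) ∈ L.V := hb'.mem (by rw [hb0]; exact ho) _
    rw [a_eq ho hbV, a, Set.ncard_eq_toFinset_card _ (saw_finite hbV n)]
    apply Finset.card_le_card_of_injOn
      (fun (w : Fin (m + n + 1) → Plane) (i : Fin (n + 1)) => w ⟨m + i, by omega⟩)
    · intro w hw
      simp only [Finset.coe_filter, Set.Finite.mem_toFinset, Set.mem_setOf_eq] at hw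
      obtain ⟨⟨h0, hw⟩, hwb⟩ := hw
      have hw : IsSaw L w := hw
      rw [Set.Finite.coe_toFinset]
      refine ⟨?_, fun i => hw.adj (i := m + i) (by omega), fun i j hij => ?_⟩
      · have := congrFun hwb (Fin.last m)
        rw [← this]
        rfl
      · have := hw.2 hij
        rw [Fin.mk.injEq] at this
        exact Fin.ext (by omega)
    · intro w hw w' hw' hww
      simp only [Finset.coe_filter, Set.Finite.mem_toFinset, Set.mem_setOf_eq] at hw hw'
      funext i
      obtain ⟨i, hi⟩ := i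
      rcases Nat.lt_or_ge m i with him | him
      · have := congrFun hww ⟨i - m, by omega⟩
        simp only at this
        have h4 : m + (i - m) = i := by omega
        simpa only [h4] using this
      · have h1 := congrFun hw.2 ⟨i, by omega⟩
        have h2 := congrFun hw'.2 ⟨i, by omega⟩
        simp only [f] at h1 h2
        rw [h1, h2]

end Pool.Agent.Hhelper78.SawEq
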