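import Mathlib

/-!
# Transitive planar lattices and their self-avoiding paths
-/

namespace Pool.Agent.Hhelper78.SawEq

/-- the Euclidean plane -/
abbrev Plane : Type := EuclideanSpace ℝ (Fin 2)

/-- A transitive lattice in the plane: an infinite, connected, locally finite graph whose vertex set
`V` is a discrete set of points of the plane, such that for any two vertices `x`, `y` there is a
Euclidean isometry `φ` of the plane that maps vertices onto vertices and edges onto edges and sends
`x` to `y`. (Every regular planar lattice of the problem is one: neither the absence of crossings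
nor the convergence of simple random walk to Brownian motion is asked for.) -/
structure Lattice where
  /-- the vertices -/
  V : Set Plane
  /-- the graph; its edges join points of `V` only -/
  G : SimpleGraph Plane
  mem_of_adj : ∀ u v, G.Adj u v → u ∈ V
  infinite : V.Infinite
  discrete : ∀ v ∈ V, ∃ ε > 0, ∀ w ∈ V, dist v w < ε → w = v
  connected : ∀ u ∈ V, ∀ v ∈ V, G.Reachable u v
  locallyFinite : ∀ v, {w | G.Adj v w}.Finite
  transitive : ∀ x ∈ V, ∀ y ∈ V, ∃ φ : Plane ≃ᵢ Plane,
    (∀ v, φ v ∈ V ↔ v ∈ V) ∧ (∀ u v, G.Adj (φ u) (φ v) ↔ G.Adj u v) ∧ φ x = y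

/-- `Ω_n`: the self-avoiding paths `(w_0, …, w_n)` of length `n` with `w_0 = o` -/
def saw (L : Lattice) (o : Plane) (n : ℕ) : Set (Fin (n + 1) → Plane) :=
  {w | w 0 = o ∧ (∀ i : Fin n, L.G.Adj (w i.castSucc) (w i.succ)) ∧ Function.Injective w}

/-- `a_n = |Ω_n|` -/
noncomputable def a (L : Lattice) (o : Plane) (n : ℕ) : ℕ := (saw L o n).ncard

/-- The probability, for two independent uniform elements `w`, `w'` of `Ω_n`, that
`w{1,…,n}` and `w'{0,…,n}` are disjoint. -/
noncomputable def P (L : Lattice) (o : Plane) (n : ℕ) : ℝ :=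
  (({p : (Fin (n + 1) → Plane) × (Fin (n + 1) → Plane) | p.1 ∈ saw L o n ∧ p.2 ∈ saw L o n ∧
    ∀ i j, i ≠ 0 → p.1 i ≠ p.2 j}).ncard : ℝ) / ((a L o n : ℝ) * (a L o n : ℝ))

/-- the connective constant `μ_L = inf_{n ≥ 1} a_n^{1/n}` -/
noncomputable def mu (L : Lattice) (o : Plane) : ℝ :=
  ⨅ n : ℕ, (a L o (n + 1) : ℝ) ^ ((1 : ℝ) / ((n : ℝ) + 1))

end Pool.Agent.Hhelper78.SawEq
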