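import Pool.Agent.Hhelper78.SawEq.Count
import Pool.Agent.Hhelper78.SawEq.Analysis

/-!
# The equivalence of the two exponents
-/

namespace Pool.Agent.Hhelper78.SawEq

open Filter Topology Metric

variable {L : Lattice}

theorem reach_finite (o : Plane) (n : ℕ) :
    {y | ∃ p : L.G.Walk o y, p.length ≤ n}.Finite := by
  induction n with
  | zero =>
    refine (Set.finite_singleton o).subset ?_
    rintro y ⟨p, hp⟩
    exact (SimpleGraph.Walk.eq_of_length_eq_zero (by omega : p.length = 0)).symm
  | succ n ih =>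
    refine ((ih.biUnion (fun v _ => L.locallyFinite v)).union ih).subset ?_
    rintro y ⟨p, hp⟩
    rcases Nat.lt_or_ge p.length (n + 1) with h | h
    · exact Or.inr ⟨p, by omega⟩
    · left
      have hlen : p.length = n + 1 := by omega
      rw [Set.mem_iUnion₂]
      refine ⟨p.penultimate, ⟨p.dropLast, ?_⟩, ?_⟩
      · have h1 := SimpleGraph.Walk.length_dropLast_add_one (p := p) (by
          intro hn
          rw [SimpleGraph.Walk.nil_iff_length_eq] at hn
          omega)
        omega
      · apply SimpleGraph.Walk.adj_penultimate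
        intro hn
        rw [SimpleGraph.Walk.nil_iff_length_eq] at hn
        omega

theorem a_pos {o : Plane} (ho : o ∈ L.V) (n : ℕ) : 1 ≤ a L o n := by
  obtain ⟨y, hy, hyn⟩ := L.infinite.exists_notMem_finite (reach_finite (L := L) o n)
  obtain ⟨p, hp⟩ := (L.connected o ho y hy).exists_isPath
  have hlen : n < p.length := by
    by_contra h
    exact hyn ⟨p, not_lt.mp h⟩
  rw [a, Nat.one_le_iff_ne_zero, Ne, Set.ncard_eq_zero (saw_finite ho n)]
  intro he
  have hmem : (fun i : Fin (n + 1) => p.getVert i) ∈ saw L o n := by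
    refine ⟨by simp, fun i => ?_, fun i j hij => ?_⟩
    · exact p.adj_getVert_succ (by have := i.2; change (i : ℕ) < p.length; omega)
    · apply Fin.ext
      exact hp.getVert_injOn (by have := i.2; change (i : ℕ) ≤ p.length; omega)
        (by have := j.2; change (j : ℕ) ≤ p.length; omega) hij
  rw [he] at hmem
  exact hmem

theorem sub (o : Plane) (ho : o ∈ L.V) : Subadditive (fun n => Real.log (a L o n)) := by
  intro m n
  have h1 : (0 : ℝ) < a L o m := by exact_mod_cast a_pos ho m
  have h2 : (0 : ℝ) < a L o n := by exact_mod_cast a_pos ho n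
  have h3 : (0 : ℝ) < a L o (m + n) := by exact_mod_cast a_pos ho (m + n)
  simp only
  rw [← Real.log_mul h1.ne' h2.ne']
  apply Real.log_le_log h3
  exact_mod_cast a_submul ho m n

theorem sub_bdd (o : Plane) (ho : o ∈ L.V) :
    BddBelow (Set.range fun n : ℕ => Real.log (a L o n) / n) := by
  refine ⟨0, ?_⟩
  rintro x ⟨n, rfl⟩
  have h1 : (1 : ℝ) ≤ a L o n := by exact_mod_cast a_pos ho n
  exact div_nonneg (Real.log_nonneg h1) (by positivity)

theorem mu_eq (o : Plane) (ho : o ∈ L.V) : mu L o = Real.exp (sub o ho).lim := by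
  have hterm : ∀ n : ℕ, (a L o (n + 1) : ℝ) ^ ((1 : ℝ) / ((n : ℝ) + 1)) =
      Real.exp (Real.log (a L o (n + 1)) / ((n + 1 : ℕ) : ℝ)) := by
    intro n
    have h1 : (0 : ℝ) < a L o (n + 1) := by exact_mod_cast a_pos ho (n + 1)
    rw [Real.rpow_def_of_pos h1]
    congr 1
    push_cast
    ring
  have hbdd : BddBelow (Set.range fun n : ℕ =>
      (a L o (n + 1) : ℝ) ^ ((1 : ℝ) / ((n : ℝ) + 1))) := by
    refine ⟨0, ?_⟩
    rintro x ⟨n, rfl⟩
    positivity
  apply le_antisymm
  · have h1 : Tendsto (fun n : ℕ => Real.exp (Real.log (a L o (n + 1)) / ((n + 1 : ℕ) : ℝ))) atTop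
        (𝓝 (Real.exp (sub o ho).lim)) := by
      have h2 := ((sub o ho).tendsto_lim (sub_bdd o ho)).comp (tendsto_add_atTop_nat 1)
      exact (Real.continuous_exp.tendsto _).comp h2
    refine ge_of_tendsto h1 (Eventually.of_forall fun n => ?_)
    rw [← hterm]
    exact ciInf_le hbdd n
  · rw [mu]
    refine le_ciInf fun n => ?_
    rw [hterm]
    apply Real.exp_le_exp.mpr
    exact (sub o ho).lim_le_div (sub_bdd o ho) (by omega)

/-- `β_n = log (a_n / μ^n)` -/
noncomputable def beta (L : Lattice) (o : Plane) (n : ℕ) : ℝ :=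
  Real.log ((a L o n : ℝ) / mu L o ^ n)

theorem beta_eq {o : Plane} (ho : o ∈ L.V) (n : ℕ) :
    beta L o n = Real.log (a L o n) - n * (sub o ho).lim := by
  have h1 : (0 : ℝ) < a L o n := by exact_mod_cast a_pos ho n
  rw [beta, mu_eq o ho, Real.log_div h1.ne' (by positivity), Real.log_pow, Real.log_exp]

theorem log_P {o : Plane} (ho : o ∈ L.V) (n : ℕ) :
    2 * beta L o n - beta L o (2 * n) = - Real.log (P L o n) := by
  have h1 : (0 : ℝ) < a L o n := by exact_mod_cast a_pos ho n
  have h2 : (0 : ℝ) < a L o (2 * n) := by exact_mod_cast a_pos ho (2 * n)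
  rw [P_eq ho, Real.log_div h2.ne' (by positivity), Real.log_mul h1.ne' h1.ne', beta_eq ho,
    beta_eq ho]
  push_cast
  ring

theorem beta_tendsto {o : Plane} (ho : o ∈ L.V) :
    Tendsto (fun n : ℕ => beta L o n / n) atTop (𝓝 0) := by
  have h1 := ((sub o ho).tendsto_lim (sub_bdd o ho)).sub_const (sub o ho).lim
  rw [sub_self] at h1
  refine h1.congr' ?_
  filter_upwards [eventually_gt_atTop 0] with n hn
  rw [beta_eq ho]
  have : (n : ℝ) ≠ 0 := by positivity
  field_simp

theorem beta_pos {o : Plane} (ho : o ∈ L.V) (n : ℕ) : 0 ≤ 2 * beta L o n - beta L o (2 * n) := by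
  have h1 : (0 : ℝ) < a L o n := by exact_mod_cast a_pos ho n
  have h2 := sub o ho n n
  simp only at h2
  rw [beta_eq ho, beta_eq ho, two_mul n]
  push_cast
  linarith

/-- the exact identity -/
theorem hasSum_identity {o : Plane} (ho : o ∈ L.V) {n : ℕ} (hn : 0 < n) :
    HasSum (fun j : ℕ => (1 / 2 : ℝ) ^ (j + 1) * (- Real.log (P L o (2 ^ j * n))))
      (Real.log ((a L o n : ℝ) / mu L o ^ n)) := by
  have h := hasSum_beta (beta_tendsto ho) (beta_pos ho) hn
  simp only [log_P ho] at h
  exact h

theorem equivalence {o : Plane} (ho : o ∈ L.V) (γ : ℝ) :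
    Tendsto (fun n : ℕ => Real.log (P L o n) / Real.log n) atTop (𝓝 (-γ)) ↔
      Tendsto (fun n : ℕ => Real.log ((a L o n : ℝ) / mu L o ^ n) / Real.log n) atTop (𝓝 γ) := by
  have h1 : Tendsto (fun n : ℕ => Real.log (P L o n) / Real.log n) atTop (𝓝 (-γ)) ↔
      Tendsto (fun n : ℕ => (2 * beta L o n - beta L o (2 * n)) / Real.log n) atTop (𝓝 γ) := by
    constructor
    · intro h
      have h2 := h.neg
      rw [neg_neg] at h2
      refine h2.congr fun n => ?_
      rw [log_P ho]
      ring
    · intro h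
      refine h.neg.congr fun n => ?_
      rw [log_P ho]
      ring
  rw [h1]
  exact ⟨fun h => backward (beta_tendsto ho) (beta_pos ho) h, fun h => forward h⟩

end Pool.Agent.Hhelper78.SawEq
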