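import Pool.Agent.Hhelper78.SawEq.Defs

/-!
# Geometry of transitive planar lattices: finiteness and growth
-/

namespace Pool.Agent.Hhelper78.SawEq

open Filter Topology Metric

variable (L : Lattice)

theorem mem_of_adj' {u v : Plane} (h : L.G.Adj u v) : v ∈ L.V := L.mem_of_adj v u h.symm

theorem exists_sep : ∃ ε > 0, ∀ v ∈ L.V, ∀ w ∈ L.V, dist v w < ε → w = v := by
  obtain ⟨o, ho⟩ := L.infinite.nonempty
  obtain ⟨ε, hε, h⟩ := L.discrete o ho
  refine ⟨ε, hε, fun v hv w hw hd => ?_⟩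
  obtain ⟨φ, h1, -, h3⟩ := L.transitive v hv o ho
  have h4 : φ w = o := by
    apply h (φ w) ((h1 w).mpr hw)
    rw [← h3, φ.dist_eq]
    exact hd
  apply φ.injective
  rw [h3, h4]

theorem exists_len : ∃ ℓ : ℝ, 0 ≤ ℓ ∧ ∀ u v, L.G.Adj u v → dist u v ≤ ℓ := by
  obtain ⟨o, ho⟩ := L.infinite.nonempty
  obtain ⟨ℓ, hℓ⟩ := ((L.locallyFinite o).image (fun w => dist o w)).bddAbove
  refine ⟨max ℓ 0, le_max_right _ _, fun u v huv => ?_⟩
  obtain ⟨φ, h1, h2, h3⟩ := L.transitive u (L.mem_of_adj u v huv) o ho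
  rw [← φ.dist_eq, h3]
  apply le_max_of_le_left
  apply hℓ
  refine ⟨φ v, ?_, rfl⟩
  change L.G.Adj o (φ v)
  rw [← h3]
  exact (h2 u v).mpr huv

/-- the vertices in a closed ball -/
def bV (o : Plane) (R : ℝ) : Set Plane := L.V ∩ closedBall o R

theorem coord_le {x y : Plane} (i : Fin 2) : |x i - y i| ≤ dist x y := by
  rw [EuclideanSpace.dist_eq, ← Real.sqrt_sq_eq_abs]
  apply Real.sqrt_le_sqrt
  have h : (x i - y i) ^ 2 = dist (x i) (y i) ^ 2 := by rw [Real.dist_eq, sq_abs]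
  rw [h]
  exact Finset.single_le_sum (f := fun j => dist (x j) (y j) ^ 2) (fun j _ => sq_nonneg _)
    (Finset.mem_univ i)

theorem dist_lt_of_coord {x y : Plane} {δ : ℝ} (hδ : 0 < δ) (h : ∀ i, |x i - y i| < δ) :
    dist x y < 2 * δ := by
  rw [EuclideanSpace.dist_eq, Real.sqrt_lt' (by positivity), Fin.sum_univ_two]
  have h0 := h 0
  have h1 := h 1
  rw [Real.dist_eq, Real.dist_eq, sq_abs, sq_abs]
  have h0' : (x 0 - y 0) ^ 2 < δ ^ 2 := sq_lt_sq' (abs_lt.mp h0).1 (abs_lt.mp h0).2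
  have h1' : (x 1 - y 1) ^ 2 < δ ^ 2 := sq_lt_sq' (abs_lt.mp h1).1 (abs_lt.mp h1).2
  nlinarith

theorem floor_mem {x δ R : ℝ} (hδ : 0 < δ) (hx : |x| ≤ R) :
    ⌊x / δ⌋ ∈ Finset.Icc (-(⌈R / δ⌉ + 1)) (⌈R / δ⌉ + 1) := by
  rw [Finset.mem_Icc]
  have h1 := (abs_le.mp hx).1
  have h2 := (abs_le.mp hx).2
  constructor
  · rw [Int.le_floor]
    push_cast
    have h3 : -(R / δ) ≤ x / δ := by
      rw [← neg_div]
      exact div_le_div_of_nonneg_right h1 hδ.le
    have h4 := Int.le_ceil (R / δ)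
    linarith
  · have h3 : x / δ ≤ R / δ := div_le_div_of_nonneg_right h2 hδ.le
    have h4 := Int.le_ceil (R / δ)
    have h5 := Int.floor_le (x / δ)
    have h6 : ((⌊x / δ⌋ : ℤ) : ℝ) ≤ ((⌈R / δ⌉ : ℤ) : ℝ) := by linarith
    have h7 : ⌊x / δ⌋ ≤ ⌈R / δ⌉ := by exact_mod_cast h6
    omega

theorem exists_growth (o : Plane) : ∃ C : ℝ, 0 < C ∧ ∀ R : ℝ, 0 ≤ R →
    (bV L o R).Finite ∧ ((bV L o R).ncard : ℝ) ≤ (C * (R + 1)) ^ 2 := by
  obtain ⟨ε, hε, hsep⟩ := exists_sep L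
  set δ : ℝ := ε / 2 with hδd
  have hδ : 0 < δ := by positivity
  refine ⟨2 / δ + 5, by positivity, fun R hR => ?_⟩
  let f : Plane → ℤ × ℤ := fun v => (⌊(v 0 - o 0) / δ⌋, ⌊(v 1 - o 1) / δ⌋)
  set I := Finset.Icc (-(⌈R / δ⌉ + 1)) (⌈R / δ⌉ + 1) with hI
  have hmaps : Set.MapsTo f (bV L o R) (↑(I ×ˢ I) : Set (ℤ × ℤ)) := by
    intro v hv
    have hd : dist v o ≤ R := hv.2
    rw [Finset.mem_coe, Finset.mem_product]
    exact ⟨floor_mem hδ (le_trans (coord_le 0) hd), floor_mem hδ (le_trans (coord_le 1) hd)⟩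
  have hinj : Set.InjOn f (bV L o R) := by
    intro v hv w hw hvw
    have h1 : ⌊(v 0 - o 0) / δ⌋ = ⌊(w 0 - o 0) / δ⌋ := congrArg Prod.fst hvw
    have h2 : ⌊(v 1 - o 1) / δ⌋ = ⌊(w 1 - o 1) / δ⌋ := congrArg Prod.snd hvw
    have h3 := Int.abs_sub_lt_one_of_floor_eq_floor h1
    have h4 := Int.abs_sub_lt_one_of_floor_eq_floor h2
    have h5 : dist v w < 2 * δ := by
      apply dist_lt_of_coord hδ
      intro i
      fin_cases i
      · have : (v 0 - o 0) / δ - (w 0 - o 0) / δ = (v 0 - w 0) / δ := by ring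
        rw [this, abs_div, abs_of_pos hδ, div_lt_one hδ] at h3
        exact h3
      · have : (v 1 - o 1) / δ - (w 1 - o 1) / δ = (v 1 - w 1) / δ := by ring
        rw [this, abs_div, abs_of_pos hδ, div_lt_one hδ] at h4
        exact h4
    exact (hsep v hv.1 w hw.1 (by rw [hδd] at h5; linarith)).symm
  have hfin : (bV L o R).Finite := Set.Finite.of_injOn hmaps hinj (Finset.finite_toSet _)
  refine ⟨hfin, ?_⟩
  have hle := Set.ncard_le_ncard_of_injOn f hmaps hinj (Finset.finite_toSet _)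
  rw [Set.ncard_coe_finset, Finset.card_product] at hle
  have hc : (I.card : ℝ) ≤ (2 / δ + 5) * (R + 1) := by
    have h0 : 0 ≤ ⌈R / δ⌉ := Int.ceil_nonneg (by positivity)
    have h1 : (I.card : ℝ) = 2 * (⌈R / δ⌉ : ℝ) + 3 := by
      rw [hI, Int.card_Icc]
      have h2 : (((⌈R / δ⌉ + 1 + 1 - -(⌈R / δ⌉ + 1)).toNat : ℤ)) = 2 * ⌈R / δ⌉ + 3 := by
        rw [Int.toNat_of_nonneg (by omega)]; ring
      exact_mod_cast h2
    rw [h1]
    have h3 := (Int.ceil_lt_add_one (R / δ)).le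
    have h4 : 2 * (R / δ) = 2 / δ * R := by ring
    have h5 : 0 < 2 / δ := by positivity
    nlinarith
  have h6 : ((bV L o R).ncard : ℝ) ≤ (I.card : ℝ) * I.card := by exact_mod_cast hle
  have h7 : (0 : ℝ) ≤ I.card := by positivity
  nlinarith

/-- there is no exponential growth: a uniform factor `> 1` between `N(R+c)` and `N(R)` is impossible -/
theorem no_exp_growth {o : Plane} (ho : o ∈ L.V) {c : ℝ} (hc : 0 ≤ c) {p q : ℕ} (hpq : p < q)
    (h : ∀ R : ℝ, 0 ≤ R → q * (bV L o R).ncard ≤ p * (bV L o (R + c)).ncard) : False := by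
  obtain ⟨C, hC, hg⟩ := exists_growth L o
  have h0 : 1 ≤ (bV L o 0).ncard := by
    rw [Nat.one_le_iff_ne_zero, Ne, Set.ncard_eq_zero ((hg 0 le_rfl).1)]
    intro he
    have : o ∈ bV L o 0 := ⟨ho, mem_closedBall_self le_rfl⟩
    rw [he] at this
    exact this
  have hpow : ∀ k : ℕ, q ^ k ≤ p ^ k * (bV L o (k * c)).ncard := by
    intro k
    induction k with
    | zero => simpa using h0
    | succ k ih =>
      have h1 := h (k * c) (by positivity)
      have h2 : ((k + 1 : ℕ) : ℝ) * c = k * c + c := by push_cast; ring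
      rw [h2, pow_succ, pow_succ]
      calc q ^ k * q ≤ p ^ k * (bV L o (k * c)).ncard * q := Nat.mul_le_mul_right q ih
        _ = p ^ k * (q * (bV L o (k * c)).ncard) := by ring
        _ ≤ p ^ k * (p * (bV L o (k * c + c)).ncard) := Nat.mul_le_mul_left _ h1
        _ = p ^ k * p * (bV L o (k * c + c)).ncard := by ring
  have hp : 0 < p := by
    rcases Nat.eq_zero_or_pos p with h1 | h1
    · have h2 := hpow 1
      rw [h1] at h2
      simp only [pow_one, zero_mul] at h2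
      omega
    · exact h1
  -- compare with the polynomial bound
  have hr : (1 : ℝ) < (q : ℝ) / p := by
    rw [one_lt_div (by exact_mod_cast hp)]
    exact_mod_cast hpq
  have hbound : ∀ k : ℕ, ((q : ℝ) / p) ^ k ≤ (C * (c + 1)) ^ 2 * ((k : ℝ) + 1) ^ 2 := by
    intro k
    have h1 : (q : ℝ) ^ k ≤ (p : ℝ) ^ k * ((bV L o (k * c)).ncard : ℝ) := by
      exact_mod_cast hpow k
    have h2 := (hg (k * c) (by positivity)).2
    rw [div_pow, div_le_iff₀ (by positivity)]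
    have h3 : (C * (k * c + 1)) ^ 2 ≤ (C * (c + 1)) ^ 2 * ((k : ℝ) + 1) ^ 2 := by
      rw [← mul_pow]
      apply pow_le_pow_left₀ (by positivity)
      have hk : (0 : ℝ) ≤ k := by positivity
      nlinarith [mul_nonneg hC.le hc, mul_nonneg hC.le hk, mul_nonneg (mul_nonneg hC.le hc) hk]
    have h4 : (0 : ℝ) < (p : ℝ) ^ k := by positivity
    nlinarith [mul_le_mul_of_nonneg_left (h2.trans h3) h4.le]
  have htend : Tendsto (fun k : ℕ => ((k : ℝ)) ^ 2 / ((q : ℝ) / p) ^ k) atTop (𝓝 0) :=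
    tendsto_pow_const_div_const_pow_of_one_lt 2 hr
  have hK : 0 < (C * (c + 1)) ^ 2 := by positivity
  have hev := (htend.eventually (gt_mem_nhds (show (0 : ℝ) < 1 / (4 * (C * (c + 1)) ^ 2 + 1) by
    positivity))).and (eventually_ge_atTop 1)
  obtain ⟨k, hk1, hk2⟩ := hev.exists
  have h1 := hbound k
  have hrk : 0 < ((q : ℝ) / p) ^ k := by positivity
  rw [div_lt_div_iff₀ hrk (by positivity)] at hk1
  have hk2' : (1 : ℝ) ≤ k := by exact_mod_cast hk2
  have h5 : ((k : ℝ) + 1) ^ 2 ≤ 4 * (k : ℝ) ^ 2 := by nlinarith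
  have h6 : (C * (c + 1)) ^ 2 * ((k : ℝ) + 1) ^ 2 ≤ (C * (c + 1)) ^ 2 * (4 * (k : ℝ) ^ 2) :=
    mul_le_mul_of_nonneg_left h5 hK.le
  nlinarith

end Pool.Agent.Hhelper78.SawEq
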